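import Mathlib

set_option autoImplicit false

/-!
# Equal sums of like powers with one term prime to `p` on each side have large terms

MP_b63b86_nt (own statement). Let `p` be a prime with `p - 1 ∣ k` (and `k` even if `p = 2`), `k ≥ 3`, `v`
the exponent of `p` in `k`, and let `n` and `m` be smaller than `p^(v+1)` (`2^(v+2)` if `p = 2`). In an
admissible solution of `x_1^k + … + x_n^k = y_1^k + … + y_m^k` whose terms are not all divisible by `p`
and in which at most one `y_j` is prime to `p` (for instance `m = 1`), exactly one `x_i` and exactly one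
`y_j` are prime to `p`, and `2 max(x_i, y_j)^(p-1) > p^(k-v)`.
-/

open Finset

namespace Pool.Agent.Results.MP_b63b86_nt.LargeTerms

/-- The modulus `p^(v+1)` (`2^(v+2)` if `p = 2`), `v` the exponent of `p` in `k`: the `k`-th powers are
`0` or `1` modulo it. -/
def modulus (p k : ℕ) : ℕ :=
  if p = 2 then 2 ^ (padicValNat 2 k + 2) else p ^ (padicValNat p k + 1)

lemma pow_mod_one {p k a : ℕ} (hp : p.Prime) (hk : 3 ≤ k) (hpk : p - 1 ∣ k) (h2 : p = 2 → Even k)
    (ha : ¬ p ∣ a) : a ^ k ≡ 1 [MOD modulus p k] := by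
  unfold modulus
  split_ifs with hp2
  · subst hp2
    have hk2 := h2 rfl
    have ha0 : a ≠ 0 := by rintro rfl; exact ha (dvd_zero 2)
    rcases Nat.eq_or_lt_of_le (Nat.one_le_iff_ne_zero.2 ha0) with h1 | h1
    · rw [← h1, one_pow]
    have hodd : Odd a := by rwa [← Nat.not_even_iff_odd, even_iff_two_dvd]
    have h3 : 2 ∣ a - 1 := (Nat.Odd.sub_odd hodd odd_one).two_dvd
    have h4 := padicValNat.pow_two_sub_pow h1 h3 ha (n := k) (by omega) hk2
    rw [one_pow] at h4
    have h5 : 8 ∣ (a + 1) * (a - 1) := by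
      have h6 := Nat.eight_dvd_sq_sub_one_of_odd hodd
      have h7 : a ^ 2 - 1 = (a + 1) * (a - 1) := by
        have := Nat.sq_sub_sq a 1
        simpa using this
      rwa [h7] at h6
    have h8 : 3 ≤ padicValNat 2 ((a + 1) * (a - 1)) := by
      have h9 : (a + 1) * (a - 1) ≠ 0 := by
        have : a - 1 ≠ 0 := by omega
        positivity
      rw [← padicValNat_dvd_iff_le h9]
      exact h5
    rw [padicValNat.mul (by omega) (by omega)] at h8
    have h10 : 1 ≤ a ^ k := Nat.one_le_pow _ _ (by omega)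
    have h11 : a ^ k - 1 ≠ 0 := by
      have : 1 < a ^ k := Nat.one_lt_pow (by omega) h1
      omega
    have h12 : 2 ^ (padicValNat 2 k + 2) ∣ a ^ k - 1 := by
      rw [padicValNat_dvd_iff_le h11]
      omega
    exact ((Nat.modEq_iff_dvd' h10).2 h12).symm
  · have hcop : a.Coprime (p ^ (padicValNat p k + 1)) :=
      (Nat.Coprime.pow_right _ ((Nat.Prime.coprime_iff_not_dvd hp).2 ha).symm)
    have h1 := Nat.ModEq.pow_totient hcop
    have h2' : Nat.totient (p ^ (padicValNat p k + 1)) ∣ k := by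
      rw [Nat.totient_prime_pow_succ hp]
      refine Nat.Coprime.mul_dvd_of_dvd_of_dvd ?_ pow_padicValNat_dvd hpk
      refine Nat.Coprime.pow_left _ ?_
      rw [Nat.Prime.coprime_iff_not_dvd hp]
      intro h
      have h3 := Nat.le_of_dvd (by have := hp.two_le; omega) h
      have := hp.two_le
      omega
    obtain ⟨t, ht⟩ := h2'
    have h4 := h1.pow t
    rwa [one_pow, ← pow_mul, ← ht] at h4

lemma exp_le {p k : ℕ} (hp : p.Prime) (hk : 3 ≤ k) :
    ∃ e, e ≤ k ∧ modulus p k = p ^ e := by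
  unfold modulus
  have h1 : p ^ padicValNat p k ≤ k := Nat.le_of_dvd (by omega) pow_padicValNat_dvd
  split_ifs with hp2
  · subst hp2
    refine ⟨_, ?_, rfl⟩
    have h3 : ∀ v : ℕ, 2 ^ v ≤ k → v + 2 ≤ k := by
      intro v hv
      rcases Nat.lt_or_ge v 2 with h | h
      · omega
      · have : ∀ w : ℕ, 2 ≤ w → w + 2 ≤ 2 ^ w := by
          intro w hw
          induction w, hw using Nat.le_induction with
          | base => norm_num
          | succ w hw ih => rw [pow_succ]; omega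
        exact (this v h).trans hv
    exact h3 _ h1
  · refine ⟨_, ?_, rfl⟩
    have h2 : padicValNat p k < p ^ padicValNat p k := Nat.lt_pow_self hp.one_lt
    omega

lemma pow_mod_zero {p k a : ℕ} (hp : p.Prime) (hk : 3 ≤ k) (ha : p ∣ a) :
    a ^ k ≡ 0 [MOD modulus p k] := by
  obtain ⟨e, he, hm⟩ := exp_le hp hk
  rw [hm, Nat.modEq_zero_iff_dvd]
  exact (pow_dvd_pow p he).trans (pow_dvd_pow_of_dvd ha k)

lemma sum_mod {p k n : ℕ} (hp : p.Prime) (hk : 3 ≤ k) (hpk : p - 1 ∣ k) (h2 : p = 2 → Even k)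
    (x : Fin n → ℕ) :
    ∑ i, x i ^ k ≡ (univ.filter fun i => ¬ p ∣ x i).card [MOD modulus p k] := by
  rw [Finset.card_filter]
  refine Nat.ModEq.sum fun i _ => ?_
  by_cases h : p ∣ x i
  · rw [if_neg (not_not.2 h)]
    exact pow_mod_zero hp hk h
  · rw [if_pos h]
    exact pow_mod_one hp hk hpk h2 h

/-- The size of the difference of two different numbers with congruent `k`-th powers. -/
lemma large_aux {p k a b : ℕ} (hp : p.Prime) (hk : 3 ≤ k) (hpk : p - 1 ∣ k) (h2 : p = 2 → Even k)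
    (hba : b < a) (ha : ¬ p ∣ a) (hb : ¬ p ∣ b) (h : p ^ k ∣ a ^ k - b ^ k) :
    p ^ (k - padicValNat p k) < 2 * a ^ (p - 1) := by
  have hFp : Fact p.Prime := ⟨hp⟩
  have hlt : b ^ k < a ^ k := Nat.pow_lt_pow_left hba (by omega)
  have hne : a ^ k - b ^ k ≠ 0 := by omega
  rw [padicValNat_dvd_iff_le hne] at h
  rcases hp.eq_two_or_odd' with hp2 | hodd
  · subst hp2
    have hk2 := h2 rfl
    have hoa : Odd a := by rwa [← Nat.not_even_iff_odd, even_iff_two_dvd]
    have hob : Odd b := by rwa [← Nat.not_even_iff_odd, even_iff_two_dvd]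
    have h3 : 2 ∣ a - b := (Nat.Odd.sub_odd hoa hob).two_dvd
    have h4 := padicValNat.pow_two_sub_pow hba h3 ha (n := k) (by omega) hk2
    -- one of `a + b`, `a - b` is not divisible by `4`
    have h5 : ¬ (4 ∣ a + b ∧ 4 ∣ a - b) := by
      rintro ⟨h6, h7⟩
      obtain ⟨c, hc⟩ := hoa
      obtain ⟨d, hd⟩ := hob
      omega
    have h6 : k - padicValNat 2 k ≤ max (padicValNat 2 (a + b)) (padicValNat 2 (a - b)) := by
      by_cases h7 : 4 ∣ a + b
      · have h8 : ¬ 4 ∣ a - b := fun h9 => h5 ⟨h7, h9⟩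
        have h10 : ¬ 2 ≤ padicValNat 2 (a - b) := by
          rw [← padicValNat_dvd_iff_le (by omega)]
          exact h8
        have := le_max_left (padicValNat 2 (a + b)) (padicValNat 2 (a - b))
        omega
      · have h10 : ¬ 2 ≤ padicValNat 2 (a + b) := by
          rw [← padicValNat_dvd_iff_le (by omega)]
          exact h7
        have := le_max_right (padicValNat 2 (a + b)) (padicValNat 2 (a - b))
        omega
    have h7 : 2 ^ (k - padicValNat 2 k) ≤ a + b := by
      rcases le_max_iff.1 h6 with h8 | h8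
      · exact Nat.le_of_dvd (by omega) ((padicValNat_dvd_iff_le (by omega)).2 h8)
      · have h9 := Nat.le_of_dvd (by omega) ((padicValNat_dvd_iff_le (a := a - b) (by omega)).2 h8)
        omega
    norm_num
    omega
  · obtain ⟨t, ht⟩ := hpk
    have ht0 : t ≠ 0 := by rintro rfl; omega
    have hp1 : p - 1 ≠ 0 := by have := hp.two_le; omega
    have hAB : b ^ (p - 1) < a ^ (p - 1) := Nat.pow_lt_pow_left hba hp1
    have hA : ¬ p ∣ a ^ (p - 1) := fun h3 => ha (hp.dvd_of_dvd_pow h3)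
    have hmod : ∀ c : ℕ, ¬ p ∣ c → c ^ (p - 1) ≡ 1 [MOD p] := by
      intro c hc
      have h3 := Nat.ModEq.pow_totient ((Nat.Prime.coprime_iff_not_dvd hp).2 hc).symm
      rwa [Nat.totient_prime hp] at h3
    have h3 : p ∣ a ^ (p - 1) - b ^ (p - 1) :=
      (Nat.modEq_iff_dvd' hAB.le).1 ((hmod b hb).trans (hmod a ha).symm)
    have h4 := padicValNat.pow_sub_pow hodd hAB h3 hA ht0
    rw [← pow_mul, ← pow_mul, ← ht] at h4
    have h5 : padicValNat p k = padicValNat p t := by
      conv_lhs => rw [ht]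
      rw [padicValNat.mul hp1 ht0]
      have h6 : padicValNat p (p - 1) = 0 := by
        refine padicValNat.eq_zero_of_not_dvd fun h7 => ?_
        have := Nat.le_of_dvd (Nat.pos_of_ne_zero hp1) h7
        omega
      rw [h6, zero_add]
    have h6 : k - padicValNat p k ≤ padicValNat p (a ^ (p - 1) - b ^ (p - 1)) := by omega
    have h7 := Nat.le_of_dvd (by omega)
      ((padicValNat_dvd_iff_le (a := a ^ (p - 1) - b ^ (p - 1)) (by omega)).2 h6)
    omega

lemma pow_congr {p k n : ℕ} (x : Fin n → ℕ) (i : Fin n) (h : ∀ i', i' ≠ i → p ∣ x i') :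
    ∑ i', x i' ^ k ≡ x i ^ k [MOD p ^ k] := by
  rw [← Finset.add_sum_erase _ _ (mem_univ i)]
  have h1 : ∑ i' ∈ univ.erase i, x i' ^ k ≡ 0 [MOD p ^ k] := by
    rw [Nat.modEq_zero_iff_dvd]
    exact Finset.dvd_sum fun i' hi' => pow_dvd_pow_of_dvd (h i' (ne_of_mem_erase hi')) k
  simpa using Nat.ModEq.add_left (x i ^ k) h1

/-- Let `p` be a prime with `p - 1 ∣ k`, `k ≥ 3`, `k` even if `p = 2`, and let `n`, `m` be smaller than
`modulus p k`. If `x_1^k + … + x_n^k = y_1^k + … + y_m^k` with `x_i ≠ y_j` for all `i`, `j`, not all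
terms are divisible by `p` and at most one `y_j` is prime to `p`, then exactly one `x_i` and exactly one
`y_j` are prime to `p`, and for these `p^(k-v) < 2 max(x_i, y_j)^(p-1)`, `v` the exponent of `p`
in `k`. -/
theorem result : ∀ (p k n m : ℕ) (x : Fin n → ℕ) (y : Fin m → ℕ), p.Prime → 3 ≤ k → p - 1 ∣ k →
    (p = 2 → Even k) → n < modulus p k → m < modulus p k → (∀ i, 0 < x i) → (∀ j, 0 < y j) →
    (∀ i j, x i ≠ y j) → ∑ i, x i ^ k = ∑ j, y j ^ k →
    ((∃ i, ¬ p ∣ x i) ∨ ∃ j, ¬ p ∣ y j) → (∀ j j', ¬ p ∣ y j → ¬ p ∣ y j' → j = j') →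
    ∃ i j, ¬ p ∣ x i ∧ ¬ p ∣ y j ∧ (∀ i', i' ≠ i → p ∣ x i') ∧ (∀ j', j' ≠ j → p ∣ y j') ∧
      p ^ (k - padicValNat p k) < 2 * (max (x i) (y j)) ^ (p - 1) := by
  intro p k n m x y hp hk hpk h2 hn hm _ _ hadm heq hprim hone
  have h1 := sum_mod hp hk hpk h2 x
  have h3 := sum_mod hp hk hpk h2 y
  rw [heq] at h1
  have hcard : (univ.filter fun i => ¬ p ∣ x i).card = (univ.filter fun j => ¬ p ∣ y j).card := by
    refine Nat.ModEq.eq_of_lt_of_lt (h1.symm.trans h3) ?_ ?_
    · exact (card_le_univ _).trans_lt (by simpa using hn)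
    · exact (card_le_univ _).trans_lt (by simpa using hm)
  have hle : (univ.filter fun j => ¬ p ∣ y j).card ≤ 1 := by
    rw [card_le_one]
    intro j hj j' hj'
    exact hone j j' (mem_filter.1 hj).2 (mem_filter.1 hj').2
  have hpos : 0 < (univ.filter fun j => ¬ p ∣ y j).card := by
    rcases hprim with ⟨i, hi⟩ | ⟨j, hj⟩
    · rw [← hcard]
      exact card_pos.2 ⟨i, by simpa using hi⟩
    · exact card_pos.2 ⟨j, by simpa using hj⟩
  obtain ⟨j, hj⟩ := card_eq_one.1 (show (univ.filter fun j => ¬ p ∣ y j).card = 1 by omega)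
  obtain ⟨i, hi⟩ := card_eq_one.1 (show (univ.filter fun i => ¬ p ∣ x i).card = 1 by omega)
  have hxi : ¬ p ∣ x i := (mem_filter.1 (hi ▸ mem_singleton_self i : i ∈ _)).2
  have hyj : ¬ p ∣ y j := (mem_filter.1 (hj ▸ mem_singleton_self j : j ∈ _)).2
  have hx' : ∀ i', i' ≠ i → p ∣ x i' := by
    intro i' hi'
    by_contra hc
    have : i' ∈ univ.filter fun i => ¬ p ∣ x i := by simpa using hc
    rw [hi, mem_singleton] at this
    exact hi' this
  have hy' : ∀ j', j' ≠ j → p ∣ y j' := by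
    intro j' hj'
    by_contra hc
    have : j' ∈ univ.filter fun j => ¬ p ∣ y j := by simpa using hc
    rw [hj, mem_singleton] at this
    exact hj' this
  have hcongr : x i ^ k ≡ y j ^ k [MOD p ^ k] := by
    have h4 := pow_congr (k := k) x i hx'
    have h5 := pow_congr (k := k) y j hy'
    rw [heq] at h4
    exact h4.symm.trans h5
  refine ⟨i, j, hxi, hyj, hx', hy', ?_⟩
  rcases lt_or_gt_of_ne (hadm i j) with h | h
  · rw [max_eq_right h.le]
    refine large_aux hp hk hpk h2 h hyj hxi ?_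
    exact (Nat.modEq_iff_dvd' (Nat.pow_le_pow_left h.le k)).1 hcongr
  · rw [max_eq_left h.le]
    refine large_aux hp hk hpk h2 h hxi hyj ?_
    exact (Nat.modEq_iff_dvd' (Nat.pow_le_pow_left h.le k)).1 hcongr.symm

end Pool.Agent.Results.MP_b63b86_nt.LargeTerms
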