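import Pool.Agent.Lib.H44LPS.Main

/-!
# MP_b63b86_nt: equal sums of `k`-th powers in a short piece of an arithmetic progression

Let `k ≥ max n m` (in particular, let `k > n + m`).  If all terms of an admissible solution of
`x_1^k + ... + x_n^k = y_1^k + ... + y_m^k` are of the form `X + M t` with `0 ≤ t ≤ U`, then
`X ≤ N k M U^N`, where `N = max n m`; if moreover `X` and `M` are coprime, then
`M ≤ N (k U)^(N - 1)`.
-/

set_option autoImplicit false

namespace Pool.Agent.Results.MP_b63b86_nt.ShortProgressions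

open Finset Pool.Agent.Lib.H44LPS

/-- an inequality of Bernoulli type -/
private theorem bernoulli (X a : ℤ) (hX : 0 ≤ X) (ha : 0 ≤ a) (k : ℕ) (h : k * a ≤ X) :
    (X + a) ^ k * (X - k * a) ≤ X ^ (k + 1) := by
  induction k with
  | zero => simp
  | succ k ih =>
    push_cast at h ⊢
    have h1 : (k : ℤ) * a ≤ X := by linarith
    have h2 := ih h1
    have h3 : (X + a) * (X - (k + 1) * a) ≤ X * (X - k * a) := by nlinarith [mul_nonneg ha ha]
    have h4 : 0 ≤ (X + a) ^ k := by positivity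
    calc (X + a) ^ (k + 1) * (X - (k + 1) * a) = (X + a) ^ k * ((X + a) * (X - (k + 1) * a)) := by ring
      _ ≤ (X + a) ^ k * (X * (X - k * a)) := mul_le_mul_of_nonneg_left h3 h4
      _ = X * ((X + a) ^ k * (X - k * a)) := by ring
      _ ≤ X * X ^ (k + 1) := mul_le_mul_of_nonneg_left h2 hX
      _ = X ^ (k + 1 + 1) := by ring

/-- the case of different numbers of terms -/
private theorem unequal (k n m X M U : ℕ) (hX : 0 < X) (hU : 0 < U) (hk : 0 < k)
    (hnm : n < m) (u : Fin n → ℕ) (v : Fin m → ℕ) (hu : ∀ i, u i ≤ U)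
    (heq : ∑ i, (X + M * u i) ^ k = ∑ j, (X + M * v j) ^ k) :
    X ≤ m * k * M * U ^ m ∧ (Nat.Coprime X M → M ≤ m * (k * U) ^ (m - 1)) := by
  constructor
  · by_contra hcon
    push Not at hcon
    have h1 : m * (k * (M * U)) < X := by
      refine lt_of_le_of_lt ?_ hcon
      have : U ≤ U ^ m := Nat.le_self_pow (by omega) U
      calc m * (k * (M * U)) = m * k * M * U := by ring
        _ ≤ _ := Nat.mul_le_mul_left _ this
    have h2 : m * X ^ k ≤ ∑ j, (X + M * v j) ^ k := by
      calc m * X ^ k = ∑ _j : Fin m, X ^ k := by simp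
        _ ≤ _ := Finset.sum_le_sum fun j _ => Nat.pow_le_pow_left (Nat.le_add_right _ _) _
    have h3 : ∑ i, (X + M * u i) ^ k ≤ (m - 1) * (X + M * U) ^ k := by
      calc ∑ i, (X + M * u i) ^ k ≤ ∑ _i : Fin n, (X + M * U) ^ k :=
            Finset.sum_le_sum fun i _ => Nat.pow_le_pow_left
              (Nat.add_le_add_left (Nat.mul_le_mul_left _ (hu i)) _) _
        _ = n * (X + M * U) ^ k := by simp
        _ ≤ _ := Nat.mul_le_mul_right _ (by omega)
    have h4 : m * X ^ k ≤ (m - 1) * (X + M * U) ^ k := h2.trans (heq ▸ h3)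
    obtain ⟨m', rfl⟩ : ∃ m', m = m' + 1 := ⟨m - 1, by omega⟩
    rw [Nat.add_sub_cancel] at h4
    have hX' : (0 : ℤ) < X := by exact_mod_cast hX
    have h1' : ((m' : ℤ) + 1) * (k * (M * U)) < X := by exact_mod_cast h1
    have h4' : ((m' : ℤ) + 1) * (X : ℤ) ^ k ≤ m' * ((X : ℤ) + M * U) ^ k := by exact_mod_cast h4
    have h5 : (k : ℤ) * (M * U) ≤ X := by
      have : (0 : ℤ) ≤ m' * (k * (M * U)) := by positivity
      linarith
    have h6 := bernoulli X (M * U) hX'.le (by positivity) k h5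
    have h7 : (0 : ℤ) < ((X : ℤ) + M * U) ^ k := by positivity
    have h8 : (m' : ℤ) * X < (m' + 1) * (X - k * (M * U)) := by nlinarith
    have h9 : ((m' : ℤ) * X) * ((X : ℤ) + M * U) ^ k <
        ((m' : ℤ) + 1) * (X - k * (M * U)) * ((X : ℤ) + M * U) ^ k := mul_lt_mul_of_pos_right h8 h7
    have h10 : ((m' : ℤ) + 1) * (X - k * (M * U)) * ((X : ℤ) + M * U) ^ k ≤
        ((m' : ℤ) + 1) * (X : ℤ) ^ (k + 1) := by
      calc ((m' : ℤ) + 1) * (X - k * (M * U)) * ((X : ℤ) + M * U) ^ k
          = ((m' : ℤ) + 1) * (((X : ℤ) + M * U) ^ k * (X - k * (M * U))) := by ring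
        _ ≤ _ := mul_le_mul_of_nonneg_left h6 (by positivity)
    have h11 : ((m' : ℤ) + 1) * (X : ℤ) ^ (k + 1) ≤ ((m' : ℤ) * X) * ((X : ℤ) + M * U) ^ k := by
      calc ((m' : ℤ) + 1) * (X : ℤ) ^ (k + 1) = X * (((m' : ℤ) + 1) * (X : ℤ) ^ k) := by ring
        _ ≤ X * (m' * ((X : ℤ) + M * U) ^ k) := mul_le_mul_of_nonneg_left h4' hX'.le
        _ = _ := by ring
    linarith
  · intro hc
    have h1 : (M : ℤ) ∣ ((m : ℤ) - n) * X ^ k := by
      have hmod : ∀ w : ℕ, (M : ℤ) ∣ ((X : ℤ) + M * w) ^ k - (X : ℤ) ^ k := by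
        intro w
        have := sub_dvd_pow_sub_pow ((X : ℤ) + M * w) X k
        refine Dvd.dvd.trans ?_ this
        exact ⟨w, by ring⟩
      have ha : (M : ℤ) ∣ ∑ i, (((X : ℤ) + M * u i) ^ k - (X : ℤ) ^ k) :=
        Finset.dvd_sum fun i _ => hmod _
      have hb : (M : ℤ) ∣ ∑ j, (((X : ℤ) + M * v j) ^ k - (X : ℤ) ^ k) :=
        Finset.dvd_sum fun j _ => hmod _
      have hc' := dvd_sub ha hb
      have he : ∑ i, ((X : ℤ) + M * u i) ^ k = ∑ j, ((X : ℤ) + M * v j) ^ k := by exact_mod_cast heq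
      rw [Finset.sum_sub_distrib, Finset.sum_sub_distrib, he] at hc'
      simp only [Finset.sum_const, Finset.card_univ, Fintype.card_fin, nsmul_eq_mul] at hc'
      have hring : (∑ j, ((X : ℤ) + M * v j) ^ k - (n : ℤ) * (X : ℤ) ^ k) -
          (∑ j, ((X : ℤ) + M * v j) ^ k - (m : ℤ) * (X : ℤ) ^ k) = ((m : ℤ) - n) * X ^ k := by ring
      rwa [hring] at hc'
    have h2 : IsCoprime (M : ℤ) ((X : ℤ) ^ k) := by
      refine IsCoprime.pow_right ?_
      rw [Nat.isCoprime_iff_coprime]
      exact hc.symm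
    have h3 := h2.dvd_of_dvd_mul_right h1
    have h4 : (M : ℤ) ≤ (m : ℤ) - n := Int.le_of_dvd (by omega) h3
    have h5 : M ≤ m := by omega
    refine h5.trans ?_
    exact Nat.le_mul_of_pos_right _ (by positivity)

/-- **Equal sums of `k`-th powers in short arithmetic progressions.** -/
theorem result (k n m X M U : ℕ) (hX : 0 < X) (hM : 0 < M) (hn : 0 < n) (hm : 0 < m)
    (hk : max n m ≤ k) (x : Fin n → ℕ) (y : Fin m → ℕ)
    (hx : ∀ i, ∃ t ≤ U, x i = X + M * t) (hy : ∀ j, ∃ t ≤ U, y j = X + M * t)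
    (hne : ∀ i j, x i ≠ y j) (heq : ∑ i, x i ^ k = ∑ j, y j ^ k) :
    X ≤ max n m * k * M * U ^ max n m ∧
      (Nat.Coprime X M → M ≤ max n m * (k * U) ^ (max n m - 1)) := by
  choose u hu hxu using hx
  choose v hv hyv using hy
  obtain rfl : x = fun i => X + M * u i := funext hxu
  obtain rfl : y = fun j => X + M * v j := funext hyv
  have hU : 0 < U := by
    by_contra h0
    have h1 : U = 0 := by omega
    subst h1
    have h2 := hu ⟨0, hn⟩
    have h3 := hv ⟨0, hm⟩
    apply hne ⟨0, hn⟩ ⟨0, hm⟩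
    simp only [Nat.le_zero] at h2 h3
    simp only [h2, h3]
  have hk0 : 0 < k := lt_of_lt_of_le (lt_of_lt_of_le hn (le_max_left n m)) hk
  rcases lt_trichotomy n m with h | h | h
  · rw [max_eq_right h.le]
    exact unequal k n m X M U hX hU hk0 h u v hu heq
  · subst h
    rw [max_self] at hk ⊢
    obtain ⟨r', hr's, hr'⟩ := S_ne X M hX u v k hk ⟨0, hn⟩ (fun j => hne _ j) heq
    -- the least `r` with a difference which does not vanish
    obtain ⟨r, hr, hmin⟩ : ∃ r, S u v r ≠ 0 ∧ ∀ j < r, S u v j = 0 := by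
      classical
      have hex : ∃ r, S u v r ≠ 0 := ⟨r', hr'⟩
      refine ⟨Nat.find hex, Nat.find_spec hex, fun j hj => ?_⟩
      by_contra hcon
      exact Nat.find_min hex hj hcon
    have hrr' : r ≤ r' := by
      by_contra hcon
      exact hr' (hmin r' (by omega))
    have hr1 : 1 ≤ r := by
      rcases Nat.eq_zero_or_pos r with h0 | h0
      · subst h0
        exact absurd (by simp [S]) hr
      · exact h0
    have hrk : r < k := by omega
    constructor
    · by_contra hcon
      push Not at hcon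
      have hbig : k * M * U ≤ X := by
        refine le_trans ?_ hcon.le
        calc k * M * U = 1 * k * M * U := by ring
          _ ≤ n * k * M * U ^ n := by
            refine Nat.mul_le_mul (Nat.mul_le_mul_right _ (Nat.mul_le_mul_right _ hn)) ?_
            exact Nat.le_self_pow (by omega) U
      have h1 := size X M U hX hM u v hu hv k r hr1 hrk hmin hr heq hbig
      have h2 : n * k * M * U ^ (r + 1) ≤ n * k * M * U ^ n :=
        Nat.mul_le_mul_left _ (Nat.pow_le_pow_right hU (by omega))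
      omega
    · intro hc
      have h1 := arith X M U hM hc u v hu hv k r hrk hmin hr heq
      refine h1.trans (Nat.mul_le_mul_left _ (Nat.pow_le_pow_right (by positivity) (by omega)))
  · rw [max_eq_left h.le]
    exact unequal k m n X M U hX hU hk0 h v u hv heq.symm

end Pool.Agent.Results.MP_b63b86_nt.ShortProgressions
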